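import Pool.Agent.P.MP_1e185c_lc.Period

set_option autoImplicit false

namespace Pool.Agent.Results.MP_1e185c_lc.EqualityPeriodic

/-- The set of indices `n` with `g^n(u) = h^n(v)` is eventually periodic, and a threshold and a
period can be computed from the instance `((g, h), (u, v))`. Letters are natural numbers and a
morphism is the list of the images of the letters. -/
theorem result :
    ∃ f : (List (List ℕ) × List (List ℕ)) × (List ℕ × List ℕ) → ℕ × ℕ, Computable f ∧
      ∀ p : (List (List ℕ) × List (List ℕ)) × (List ℕ × List ℕ), 0 < (f p).2 ∧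
        ∀ n : ℕ, (f p).1 ≤ n →
          ((fun w : List ℕ => w.flatMap (fun a => p.1.1.getD a []))^[n] p.2.1 =
              (fun w : List ℕ => w.flatMap (fun a => p.1.2.getD a []))^[n] p.2.2 ↔
            (fun w : List ℕ => w.flatMap (fun a => p.1.1.getD a []))^[n + (f p).2] p.2.1 =
              (fun w : List ℕ => w.flatMap (fun a => p.1.2.getD a []))^[n + (f p).2] p.2.2) :=
  Pool.Agent.P.MP_1e185c_lc.PE.period

/-- A coincidence, if there is one, occurs below a computable bound. -/
theorem bound :
    ∃ b : (List (List ℕ) × List (List ℕ)) × (List ℕ × List ℕ) → ℕ, Computable b ∧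
      ∀ p : (List (List ℕ) × List (List ℕ)) × (List ℕ × List ℕ),
        (∃ n : ℕ, (fun w : List ℕ => w.flatMap (fun a => p.1.1.getD a []))^[n] p.2.1 =
          (fun w : List ℕ => w.flatMap (fun a => p.1.2.getD a []))^[n] p.2.2) →
        ∃ n < b p, (fun w : List ℕ => w.flatMap (fun a => p.1.1.getD a []))^[n] p.2.1 =
          (fun w : List ℕ => w.flatMap (fun a => p.1.2.getD a []))^[n] p.2.2 := by
  classical
  obtain ⟨f, hf, H⟩ := result
  refine ⟨fun p => (f p).1 + (f p).2,
    Primrec.nat_add.to_comp.comp (Computable.fst.comp hf) (Computable.snd.comp hf),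
    fun p h => ⟨Nat.find h, ?_, Nat.find_spec h⟩⟩
  by_contra hlt
  change ¬ Nat.find h < (f p).1 + (f p).2 at hlt
  have h1 := (H p).1
  obtain ⟨m, hm⟩ : ∃ m, Nat.find h = m + (f p).2 := ⟨Nat.find h - (f p).2, by omega⟩
  have h2 := Nat.find_spec h
  rw [hm] at h2
  exact Nat.find_min h (m := m) (by omega) (((H p).2 m (by omega)).2 h2)

end Pool.Agent.Results.MP_1e185c_lc.EqualityPeriodic
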